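import Pool.Agent.Q116.ZE.Fam
import Pool.Agent.Results.MP_a325a5_ag.LegendreScaledImages

/-!
# MP_a325a5_ag: Zilber-Pink in the mixed Shimura varieties `E_L^n × G_m^q` for 100 percent of the
scalings by the integral points of a torus, and for polynomial families with very few exceptions

The setting is that of the starting file `LegendreScaledImages`, whose definitions are used here: the
ambient variety is `S = E_L^n × G_m^q`, where `E_L^n` is the `n`-th fibre power of the Legendre family
of elliptic curves over `Y(2)`; `Y ⊆ P^N` is a complex projective algebraic set of any dimension,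
defined over a countable field `K`, with rational functions `f_0 = a_0 / b_0`, `f_i = a_i / (b_0 b_i)`,
`f_j = a_j / b_j` for the coordinates `t`, `x (P_i)`, `u_j`, such that no point of `Y` is on `m + 1` of
the divisors `a_s b_s = 0` and the coordinate hyperplanes (`IsMap`), and `X_c ⊂ S` is the constructible
set of all points with `t = f_0 (y) / c_0`, `x (P_i) = f_i (y) / (c_0 c_i)`, `u_j = f_j (y) / c_j`
for some `y ∈ Y` (`scaled`). `NoAtypical`: every point of `X_c ∩ Z` has transcendence degree at most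
`m - codim Z` over `K` and every irreducible constructible subset has dimension at most `m - codim Z`,
for all special subvarieties `Z` of `S` (also those in the fibres with complex multiplication), and
more generally for the products of integral relations in the whole family or in fibres with integral
`j`-invariant, and cosets of algebraic subgroups of `G_m^q` by points of the division hull of a
finitely generated group `Γm`. The scalings `c_0`, `c_i` are `β`-th roots of positive integers and the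
`c_j` are positive integers.

The starting file shows that there are no atypical intersections if these integers are spread out at
`L = (q - 1) 2 ^ q + 1` large primes, and deduces this for the members of the one-parameter families
`∏_l (k + l) ^ (e_l i)` with `O (√H)` exceptions `k ≤ H`. Here we show, for all exponents
`e_l i`, `a'_l j` with `GoodExpL`:

* For all positive integers `b₁ i`, `b₂ j` there are no atypical intersections for the scalings
  `c_i ^ β = b₁ i ∏_l u_l ^ (e_l i)`, `c_j = b₂ j ∏_l u_l ^ (a'_l j)` for 100 percent of all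
  `u ∈ {1, …, H}^L`: the number of exceptions is at most
  `L H^(L-1) (log₂ H + 1)^(y+1) + (L² + L) H^L / y` for every `y` which is at least `1`, `D` and all
  `b₁ i`, `b₂ j`. The number `D` does not depend on `β`, the exponents, and `b₁`, `b₂`.

* Let `f_1, …, f_L` be pairwise coprime polynomials of degrees between `1` and `k` with integral
  coefficients, and `g_i`, `g_j` nonzero polynomials coprime to the `f_l`. There are constants `C`, `E`
  such that for all prime numbers `β` and all good exponents there are no atypical intersections for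
  the scalings `c_i ^ β = |g_i (t)| ∏_l |f_l (t)| ^ (e_l i)`, `c_j = |g_j (t)| ∏_l |f_l (t)| ^ (a'_l j)`
  for all integers `|t| ≤ H`, with at most `C H ^ (k / β) (1 + log H) ^ E` exceptions. (`k / β` tends
  to `0` if `β` tends to infinity.)
-/

set_option autoImplicit false

namespace Pool.Agent.Results.MP_a325a5_ag.LegendreFamilies

open MvPolynomial Pool.Agent.W466.EP Pool.Agent.W282.ZP Pool.Agent.W282.LF
open Pool.Agent.Results.MP_a325a5_ag.LegendreScaledImages

/-- Zilber-Pink with no atypical intersections for almost all scalings of a projective algebraic set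
mapped to the mixed Shimura variety `E_L^n × G_m^q` by the integral points of a torus, and for the
members of polynomial families with very few exceptions. -/
theorem result {κ : Type*} (K : Subfield ℂ) [Countable K] (N n q m : ℕ)
    (G : κ → MvPolynomial (Fin (N + 1)) K) (a b : Ind n q → MvPolynomial (Fin (N + 1)) K)
    (dg : Ind n q → ℕ) (hY : IsMap G a b dg m)
    (Γm : Finset ℂˣ) (hΓm : ∀ γ ∈ Γm, (γ : ℂ) ∈ K) :
    ∃ D : ℕ,
      (∀ β : ℕ, 0 < β → ∀ (e : Fin ((q - 1) * 2 ^ q + 1) → Option (Fin n) → ℕ)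
        (a' : Fin ((q - 1) * 2 ^ q + 1) → Fin q → ℕ), GoodExpL n q β e a' →
        ∀ (b₁ : Option (Fin n) → ℕ) (b₂ : Fin q → ℕ), (∀ i, b₁ i ≠ 0) → (∀ j, b₂ j ≠ 0) →
        (∀ y : ℕ, 1 ≤ y → D ≤ y → (∀ i, b₁ i ≤ y) → (∀ j, b₂ j ≤ y) → ∀ H : ℕ,
          (Set.ncard {u : Fin ((q - 1) * 2 ^ q + 1) → ℕ | (∀ l, 1 ≤ u l ∧ u l ≤ H) ∧
            ¬ ∀ c : Ind n q → ℂ, IsScaling β c (fun i => b₁ i * ∏ l, u l ^ e l i)
              (fun j => b₂ j * ∏ l, u l ^ a' l j) → NoAtypical K Γm m (scaled G a b c)} : ℝ) ≤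
          ((q - 1) * 2 ^ q + 1 : ℕ) * (H : ℝ) ^ ((q - 1) * 2 ^ q + 1 - 1) *
              (Nat.log 2 H + 1 : ℕ) ^ (y + 1) +
            ((((q - 1) * 2 ^ q + 1 : ℕ) : ℝ) ^ 2 + ((q - 1) * 2 ^ q + 1 : ℕ)) *
              (H : ℝ) ^ ((q - 1) * 2 ^ q + 1) / y) ∧
        ∀ ε : ℝ, 0 < ε → ∃ H₀ : ℕ, ∀ H : ℕ, H₀ ≤ H →
          (Set.ncard {u : Fin ((q - 1) * 2 ^ q + 1) → ℕ | (∀ l, 1 ≤ u l ∧ u l ≤ H) ∧
            ¬ ∀ c : Ind n q → ℂ, IsScaling β c (fun i => b₁ i * ∏ l, u l ^ e l i)
              (fun j => b₂ j * ∏ l, u l ^ a' l j) → NoAtypical K Γm m (scaled G a b c)} : ℝ) ≤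
          ε * (H : ℝ) ^ ((q - 1) * 2 ^ q + 1)) ∧
      ∀ (f : Fin ((q - 1) * 2 ^ q + 1) → Polynomial ℤ) (k : ℕ),
        (∀ l, 1 ≤ (f l).natDegree ∧ (f l).natDegree ≤ k) →
        (∀ l l', l ≠ l' →
          IsCoprime ((f l).map (Int.castRingHom ℚ)) ((f l').map (Int.castRingHom ℚ))) →
        ∀ g : Ind n q → Polynomial ℤ, (∀ i, g i ≠ 0) →
        (∀ l i, IsCoprime ((f l).map (Int.castRingHom ℚ)) ((g i).map (Int.castRingHom ℚ))) →
        ∃ (C : ℝ) (E : ℕ), ∀ β : ℕ, β.Prime →
          ∀ (e : Fin ((q - 1) * 2 ^ q + 1) → Option (Fin n) → ℕ)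
            (a' : Fin ((q - 1) * 2 ^ q + 1) → Fin q → ℕ), GoodExpL n q β e a' →
          ∀ H : ℕ, 1 ≤ H →
            (Set.ncard {t : ℤ | |t| ≤ H ∧ ¬ ∀ c : Ind n q → ℂ,
              IsScaling β c
                (fun i => ((g (Sum.inl i)).eval t).natAbs * ∏ l, ((f l).eval t).natAbs ^ e l i)
                (fun j => ((g (Sum.inr j)).eval t).natAbs * ∏ l, ((f l).eval t).natAbs ^ a' l j) →
                NoAtypical K Γm m (scaled G a b c)} : ℝ) ≤
            C * (H : ℝ) ^ ((k : ℝ) / β) * (1 + Real.log H) ^ E := by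
  classical
  obtain ⟨D, C, hD⟩ := LegendreScaledImages.result K N n q m G a b dg hY Γm hΓm
  refine ⟨D, fun β hβ e a' hea b₁ b₂ hb₁ hb₂ => ?_, fun f k hf hcop g hg hfg => ?_⟩
  · obtain ⟨hmain, -⟩ := hD β hβ
    have hfirst : ∀ y : ℕ, 1 ≤ y → D ≤ y → (∀ i, b₁ i ≤ y) → (∀ j, b₂ j ≤ y) → ∀ H : ℕ,
          (Set.ncard {u : Fin ((q - 1) * 2 ^ q + 1) → ℕ | (∀ l, 1 ≤ u l ∧ u l ≤ H) ∧
            ¬ ∀ c : Ind n q → ℂ, IsScaling β c (fun i => b₁ i * ∏ l, u l ^ e l i)
              (fun j => b₂ j * ∏ l, u l ^ a' l j) → NoAtypical K Γm m (scaled G a b c)} : ℝ) ≤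
          ((q - 1) * 2 ^ q + 1 : ℕ) * (H : ℝ) ^ ((q - 1) * 2 ^ q + 1 - 1) *
              (Nat.log 2 H + 1 : ℕ) ^ (y + 1) +
            ((((q - 1) * 2 ^ q + 1 : ℕ) : ℝ) ^ 2 + ((q - 1) * 2 ^ q + 1 : ℕ)) *
              (H : ℝ) ^ ((q - 1) * 2 ^ q + 1) / y := by
      intro y hy hDy h1y h2y H
      refine le_trans ?_ (Pool.Agent.Q116.ZE.count_u' ((q - 1) * 2 ^ q + 1) hy H)
      rw [← Set.ncard_coe_finset]
      refine Nat.cast_le.2 (Set.ncard_le_ncard ?_ (Finset.finite_toSet _))
      rintro u ⟨hu1, hu2⟩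
      rw [Finset.mem_coe, Finset.mem_filter, Fintype.mem_piFinset]
      refine ⟨fun l => Finset.mem_Icc.2 (hu1 l), ?_⟩
      rintro ⟨p, hp, hpp⟩
      apply hu2
      intro c hc
      have hu0 : ∀ l, u l ≠ 0 := fun l => by have := (hu1 l).1; omega
      refine hmain c _ _ hc (Pool.Agent.Q116.ZE.spreadL_of_exps hea hu0 hb₁ hb₂ p
        (fun l => ⟨(hp l).1, lt_of_le_of_lt hDy (hp l).2.1⟩) (fun l => (hp l).2.2.1)
        (fun l => ?_) hpp ?_ ?_)
      · have h4 : 1 ≤ (u l).factorization (p l) :=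
          ((hp l).1.dvd_iff_one_le_factorization (hu0 l)).1 (hp l).2.2.1
        have h5 : ¬ 2 ≤ (u l).factorization (p l) := fun h =>
          (hp l).2.2.2 (((hp l).1.pow_dvd_iff_le_factorization (hu0 l)).2 h)
        have h6 : (u l).factorization (p l) = 1 := by omega
        rw [h6]
        exact Nat.coprime_one_right β
      · intro l i h
        have h4 := Nat.le_of_dvd (Nat.pos_of_ne_zero (hb₁ i)) h
        have h5 := (hp l).2.1
        have h6 := h1y i
        omega
      · intro l i h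
        have h4 := Nat.le_of_dvd (Nat.pos_of_ne_zero (hb₂ i)) h
        have h5 := (hp l).2.1
        have h6 := h2y i
        omega
    refine ⟨hfirst, fun ε hε => ?_⟩
    obtain ⟨y, hYy, H₀, hH₀⟩ := Pool.Agent.Q116.ZE.small_bound' ((q - 1) * 2 ^ q + 1)
      (D + ∑ i, b₁ i + ∑ j, b₂ j + 1) hε
    refine ⟨H₀, fun H hH => (hfirst y (by omega) (by omega) (fun i => ?_) (fun j => ?_) H).trans
      (hH₀ H hH)⟩
    · have h1 : b₁ i ≤ ∑ i, b₁ i := Finset.single_le_sum (fun i _ => Nat.zero_le _)
        (Finset.mem_univ i)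
      omega
    · have h1 : b₂ j ≤ ∑ j, b₂ j := Finset.single_le_sum (fun i _ => Nat.zero_le _)
        (Finset.mem_univ j)
      omega
  · obtain ⟨C', E, hC'⟩ := Pool.Agent.Q116.ZE.poly_exceptions f k hf hcop g hg hfg D
    refine ⟨C', E, fun β hβ e a' hea H hH => ?_⟩
    obtain ⟨hmain, -⟩ := hD β hβ.pos
    refine le_trans (Nat.cast_le.2 (Set.ncard_le_ncard ?_ ?_)) (hC' β hβ.one_lt.le H hH)
    · rintro t ⟨ht1, ht2⟩
      refine ⟨ht1, fun hgood => ht2 fun c hc => ?_⟩
      exact hmain c _ _ hc (Pool.Agent.Q116.ZE.spreadL_of_goodAt hβ hea hgood)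
    · refine (Set.finite_Icc (-(H : ℤ)) H).subset ?_
      rintro t ⟨ht1, -⟩
      exact abs_le.1 ht1

end Pool.Agent.Results.MP_a325a5_ag.LegendreFamilies
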