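import Pool.Agent.Q41.ZP.Count3
import Pool.Agent.Q116.ZE.Fam
import Pool.Agent.Results.MP_a325a5_ag.LegendreScaledImages

/-!
# MP_a325a5_ag: Zilber-Pink in the mixed Shimura varieties `E_L^n × G_m^q` for the members of
multi-parameter families of scalings, with few exceptions

The setting is that of the starting file `LegendreScaledImages`, whose definitions are used here: the
ambient variety is `S = E_L^n × G_m^q`, where `E_L^n` is the `n`-th fibre power of the Legendre family
of elliptic curves over `Y(2)`; `Y ⊆ P^N` is a complex projective algebraic set of any dimension,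
defined over a countable field `K`, with rational functions `f_0 = a_0 / b_0`, `f_i = a_i / (b_0 b_i)`,
`f_j = a_j / b_j` for the coordinates `t`, `x (P_i)`, `u_j`, such that no point of `Y` is on `m + 1` of
the divisors `a_s b_s = 0` and the coordinate hyperplanes (`IsMap`), and `X_c ⊂ S` is the constructible
set of all points with `t = f_0 (y) / c_0`, `x (P_i) = f_i (y) / (c_0 c_i)`, `u_j = f_j (y) / c_j`
for some `y ∈ Y` (`scaled`). `NoAtypical`: every point of `X_c ∩ Z` has transcendence degree at most
`m - codim Z` over `K` and every irreducible constructible subset has dimension at most `m - codim Z`,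
for all special subvarieties `Z` of `S` (also those in the fibres with complex multiplication), and
more generally for the products of integral relations in the whole family or in fibres with integral
`j`-invariant, and cosets of algebraic subgroups of `G_m^q` by points of the division hull of a
finitely generated group `Γm`. The scalings `c_0`, `c_i` are `β`-th roots of positive integers and the
`c_j` are positive integers.

Here `f_1, …, f_L`, with `L = (q - 1) 2 ^ q + 1`, are polynomials in any number `s` of parameters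
`z_1, …, z_s` with integral coefficients, every `f_l` having a nonconstant irreducible factor `P_l` of
degree at most `k` which does not divide the other `f_l'`, and `g_i`, `g_j` are polynomials not
divisible by the `P_l`. For `ε > 0` there is a constant `C` such that for all prime numbers `β` for
which `P_l ^ β` does not divide `f_l`, and for all exponents with `GoodExpL`, the set `X_c` with
`c_i ^ β = |g_i (z)| ∏_l |f_l (z)| ^ (e_l i)` and `c_j = |g_j (z)| ∏_l |f_l (z)| ^ (a'_l j)` has no
atypical intersections, for all integral points `z` with `|z_i| ≤ H` but at most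
`C H ^ (s - 1 + k / β + ε)` of the `(2 H + 1) ^ s`.

The proof: `LegendreScaledImages` shows that there are no atypical intersections if the exponents of
these integers at `L` large primes are in general position. By the results of `Pool.Agent.Q41.ZP` for
all but few `z` the value `P_l (z)` has a large prime divisor `p_l` with an exponent not divisible by
`β` which does not divide the values of the other polynomials.
-/

set_option autoImplicit false

namespace Pool.Agent.Results.MP_a325a5_ag.LegendreMultiparameter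

open MvPolynomial Pool.Agent.W466.EP Pool.Agent.W282.ZP Pool.Agent.W282.LF
open Pool.Agent.Results.MP_a325a5_ag.LegendreScaledImages

/-- Zilber-Pink with no atypical intersections for the members of multi-parameter families of scalings
of a projective algebraic set mapped to the mixed Shimura variety `E_L^n × G_m^q`, with few
exceptions. -/
theorem result {κ : Type*} (K : Subfield ℂ) [Countable K] (N n q m : ℕ)
    (G : κ → MvPolynomial (Fin (N + 1)) K) (a b : Ind n q → MvPolynomial (Fin (N + 1)) K)
    (dg : Ind n q → ℕ) (hY : IsMap G a b dg m)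
    (Γm : Finset ℂˣ) (hΓm : ∀ γ ∈ Γm, (γ : ℂ) ∈ K)
    (s k : ℕ) (f P : Fin ((q - 1) * 2 ^ q + 1) → MvPolynomial (Fin s) ℤ)
    (hP : ∀ l, Irreducible (P l) ∧ 1 ≤ (P l).totalDegree ∧ (P l).totalDegree ≤ k)
    (hf : ∀ l, f l ≠ 0 ∧ P l ∣ f l) (hff : ∀ l l', l ≠ l' → ¬ P l ∣ f l')
    (g : Ind n q → MvPolynomial (Fin s) ℤ) (hg : ∀ l i, ¬ P l ∣ g i) (ε : ℝ) (hε : 0 < ε) :
    ∃ C : ℝ, ∀ β : ℕ, β.Prime → (∀ l, ¬ P l ^ β ∣ f l) →
      ∀ (e : Fin ((q - 1) * 2 ^ q + 1) → Option (Fin n) → ℕ)
        (a' : Fin ((q - 1) * 2 ^ q + 1) → Fin q → ℕ), GoodExpL n q β e a' →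
      ∀ H : ℕ, 1 ≤ H →
        (Set.ncard {z : Fin s → ℤ | (∀ j, |z j| ≤ (H : ℤ)) ∧ ¬ ∀ c : Ind n q → ℂ,
          IsScaling β c
            (fun i => (eval z (g (Sum.inl i))).natAbs * ∏ l, (eval z (f l)).natAbs ^ e l i)
            (fun j => (eval z (g (Sum.inr j))).natAbs * ∏ l, (eval z (f l)).natAbs ^ a' l j) →
            NoAtypical K Γm m (scaled G a b c)} : ℝ) ≤
        C * (H : ℝ) ^ ((s : ℝ) - 1 + (k : ℝ) / β + ε) := by
  classical
  obtain ⟨D, C₀, hD⟩ := LegendreScaledImages.result K N n q m G a b dg hY Γm hΓm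
  choose μ h hh hfe using fun l => WfDvdMonoid.max_power_factor (hf l).1 (hP l).1
  -- the cofactors
  let cof : Fin ((q - 1) * 2 ^ q + 1) → (Fin ((q - 1) * 2 ^ q + 1) ⊕ Ind n q) →
        MvPolynomial (Fin s) ℤ :=
    fun l => Sum.elim (fun l' => if l' = l then h l else f l') g
  have hcof : ∀ l i, ¬ P l ∣ cof l i := by
    rintro l (l' | i)
    · change ¬ P l ∣ if l' = l then h l else f l'
      split_ifs with hl
      · exact hh l
      · exact hff l l' (Ne.symm hl)
    · exact hg l i
  obtain ⟨C, hC⟩ := Pool.Agent.Q41.ZP.count_sym3 P (fun l => (hP l).1)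
    (fun l => by have := (hP l).2.1; omega)
    (fun l l' hll hd => hff l l' hll (hd.trans (hf l').2)) cof hcof D (fun l => (hP l).2.2) hε
  refine ⟨C, fun β hβ hPβ e a' hea H hH => ?_⟩
  obtain ⟨hmain, -⟩ := hD β hβ.pos
  refine le_trans (Nat.cast_le.2 (Set.ncard_le_ncard ?_ ?_)) (hC β hβ.one_lt.le H hH)
  · rintro t ⟨htH, ht⟩
    refine ⟨htH, fun hgood => ht ?_⟩
    obtain ⟨hP0, p, hp, hp1, hp2⟩ := hgood
    have hcop : ∀ l l', l ≠ l' → ¬ (p l : ℤ) ∣ eval t (f l') := by
      intro l l' hll hd
      refine hp2 l (Sum.inl l') ?_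
      change (p l : ℤ) ∣ eval t (if l' = l then h l else f l')
      rw [if_neg (Ne.symm hll)]
      exact hd
    have hph : ∀ l, ¬ (p l : ℤ) ∣ eval t (h l) := by
      intro l hd
      refine hp2 l (Sum.inl l) ?_
      change (p l : ℤ) ∣ eval t (if l = l then h l else f l)
      rw [if_pos rfl]
      exact hd
    have hfev : ∀ l, eval t (f l) = eval t (P l) ^ μ l * eval t (h l) := by
      intro l
      conv_lhs => rw [hfe l]
      rw [map_mul, map_pow]
    have hμ1 : ∀ l, 1 ≤ μ l := by
      intro l
      rcases Nat.eq_zero_or_pos (μ l) with h0 | h0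
      · exfalso
        have h1 := hfe l
        rw [h0, pow_zero, one_mul] at h1
        exact hh l (h1 ▸ (hf l).2)
      · exact h0
    have hμβ : ∀ l, μ l < β := by
      intro l
      by_contra hcon
      refine hPβ l ?_
      rw [hfe l]
      exact (pow_dvd_pow _ (not_lt.1 hcon)).mul_right _
    have hh0 : ∀ l, eval t (h l) ≠ 0 := fun l h0 => hph l (h0 ▸ dvd_zero _)
    have hf0 : ∀ l, eval t (f l) ≠ 0 := fun l => by
      rw [hfev]
      exact mul_ne_zero (pow_ne_zero _ (hP0 l)) (hh0 l)
    have hfac : ∀ l, ¬ β ∣ (eval t (f l)).natAbs.factorization (p l) := by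
      intro l
      rw [hfev, Int.natAbs_mul, Int.natAbs_pow,
        Nat.factorization_mul (pow_ne_zero _ (Int.natAbs_ne_zero.2 (hP0 l)))
          (Int.natAbs_ne_zero.2 (hh0 l)), Nat.factorization_pow]
      simp only [Finsupp.coe_add, Finsupp.coe_smul, Pi.add_apply, Pi.smul_apply, smul_eq_mul]
      rw [Nat.factorization_eq_zero_of_not_dvd (fun hd => hph l (Int.natCast_dvd.2 hd)), add_zero]
      intro hd
      rcases hβ.dvd_mul.1 hd with h1 | h1
      · exact absurd (Nat.le_of_dvd (hμ1 l) h1) (not_le.2 (hμβ l))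
      · exact (hp l).2.2 h1
    intro c hc
    refine hmain c _ _ hc (Pool.Agent.Q116.ZE.spreadL_of_exps hea
      (fun l => Int.natAbs_ne_zero.2 (hf0 l)) (fun i => Int.natAbs_ne_zero.2 fun h0 => ?_)
      (fun j => Int.natAbs_ne_zero.2 fun h0 => ?_) p (fun l => ⟨(hp l).1, (hp l).2.1⟩)
      (fun l => ?_) (fun l => (hβ.coprime_iff_not_dvd).2 (hfac l)) ?_ ?_ ?_)
    · exact hp2 ⟨0, Nat.succ_pos _⟩ (Sum.inr (Sum.inl i))
        (show (_ : ℤ) ∣ eval t (g (Sum.inl i)) from h0 ▸ dvd_zero _)
    · exact hp2 ⟨0, Nat.succ_pos _⟩ (Sum.inr (Sum.inr j))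
        (show (_ : ℤ) ∣ eval t (g (Sum.inr j)) from h0 ▸ dvd_zero _)
    · by_contra h1
      exact hfac l (by rw [Nat.factorization_eq_zero_of_not_dvd h1]; exact dvd_zero β)
    · exact fun l l' hll hd => hcop l l' hll (Int.natCast_dvd.2 hd)
    · exact fun l i hd => hp2 l (Sum.inr (Sum.inl i)) (Int.natCast_dvd.2 hd)
    · exact fun l j hd => hp2 l (Sum.inr (Sum.inr j)) (Int.natCast_dvd.2 hd)
  · refine Set.Finite.subset (Set.Finite.pi' fun _ : Fin s => Set.finite_Icc (-(H : ℤ)) H) ?_
    rintro t ⟨ht, -⟩ j
    exact abs_le.1 (ht j)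

end Pool.Agent.Results.MP_a325a5_ag.LegendreMultiparameter
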