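import Pool.Agent.Q57.ZP.Mix

/-!
# MP_a325a5_ag: Zilber-Pink in the mixed Shimura varieties `Y_1 × … × Y_n × G_m^k` for families scaled
by arbitrary units

The Shimura variety `Y(1)^n` is identified with `ℂ^n` by the elliptic modular function
`jj = j = E₄³ / Δ`. The ambient variety is `Y(1)^n × G_m^k`, with coordinates indexed by
`Fin n ⊕ Fin k`, or more generally a product of modular curves of any levels (finite over `Y(1)^n`)
and a torus.

**Families.** Let `K ⊂ ℂ` be a countable field. We consider subsets `X_{t,w}` (`member`) of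
`Y(1)^n × G_m^k` with `1 + n + k` parameters `t, w_i`, given by
* a family `B_t ⊆ P^N` of projective algebraic sets, defined by forms `G l` with coefficients in
  `K[t]`,
* quotients `f_i = A_i / B_i` of forms of the same degree `δ_i` with coefficients in `K[t]`, one for
  every coordinate,
* functions `s_i` integral over `K[j]`, `R_i (s_i, j) = 0` with `R_i` monic in the first variable
  (level one: `R_i = S - J`, `s_i = j`; in general modular functions of any level without poles
  in the upper half plane), and nonzero polynomials `c_i ∈ K[t]`: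
`X_{t,w}` is the set of all `(x, u)` such that for some `y ∈ B_t` and some `s` we have
`R_i (s_i, x_i) = 0`, `w_i c_i (t) s_i = A_i (y) / B_i (y)` for the modular coordinates, and
`w_j c_j (t) u_j = A_j (y) / B_j (y)` for the torus coordinates.

**Multipliers.** Let `F` and `P` be finite sets of complex numbers algebraic over `K`, and let `R_t` be
the ring generated by `F`, `t` and the numbers `1 / (t - b)`, `b ∈ P`. The multipliers `w_i` are
arbitrary units of `R_t`, independent of each other. Examples: arbitrary units of the ring generated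
by `F` (for instance `S`-units); arbitrary powers `(t - b) ^ k`, `b ∈ P`, `k ∈ ℤ`, so that the degrees
of the scalings as functions of `t` are not bounded; and arbitrary powers of `v`, if `t = u / v` with
`u`, `v` in the ring generated by `F` and `a u + e v = 1` with `a`, `e` in this ring (then `v` and
`1 / v = a t + e` are in `R_t`), so that the scalings `w_i c_i (t)` can be arbitrary forms of any
degrees in two coprime variables `u`, `v`.

**Degenerate members.** Let `D_1, …, D_M` be finite sets of complex numbers algebraic over `K`, disjoint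
from `P`, such that for all `α` in `D_l`
* no point of `B_α` lies on `m + 1` of the divisors of the `f_i` (at `t = α`), and
* the `c_i` have zeros at `α`, of orders `e_i (α) > 0`, and these orders are independent
  (`IndependentOrders`): for the modular coordinates `q e_i (α) e_j (α) e_i (α') e_j (α')` is not a
  square for `α` in `D_l` and `α'` in `D_l'`, `l ≠ l'`, `i ≠ j`, `1 ≤ q ≤ T^8`, where `T` bounds the
  degrees of the `R_i` (`T = 1` for level one), and for the torus coordinates the vectors
  `(e_j (α_l))_j` span `ℚ^k` if `α_l` is in `D_l` for at least `k` of the `l`.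

**Theorem.** Let `L = n (n - 1) / 2 + k 2^k`. For all but finitely many
1. `t` in the field generated by `F`, if the union of any `M - L` or more of the sets `D_l` has at least
   three elements,
2. `t` in the ring generated by `F`, if the union of any `M - L` or more of the sets `D_l` has at least
   two elements,
3. units `t` of the ring generated by `F`, if the union of any `M - L` or more of the sets `D_l`
   contains a nonzero number (for example, if there are `L + 1` degenerate members with nonzero
   parameters); this includes the elements `t` of any given finitely generated multiplicative group,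

and for ALL `w` in `(R_t^×)^(n + k)` the set `X_{t,w}` has no atypical intersection with the products
`Z × C`, `Z` a special subvariety of `Y(1)^n` and `C` a torsion coset: every irreducible subset of
`X_{t,w} ∩ (Z × C)`, closed in `ℂ^n × (ℂ^×)^k`, has dimension at most
`dim Z + dim C + m - (n + k)`, and the same bound holds for the transcendence degrees of the points of
`X_{t,w} ∩ (Z × C)` over `K`. The constant coordinates of `Z` can be special points or integral over
the ring generated by any given finite set `Γ` of numbers algebraic over `K`, and `C` can be any coset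
of an algebraic subgroup by a point `η` such that the `η_j` and `1 / η_j` are integral over this ring.

The finite exceptional set of the `t` does not depend on `w`. The starting file
`FinitelyGeneratedFields` is the case `w = 1` of 1. and 2. (one-parameter families). For tori
(`n = 0`), `X_{t,w}` is the translate of `X_{t,1}` by `w⁻¹`; the multipliers of all the coefficients
of systems of equations, instead of the coordinates only, are treated in
`MP_c95b3b_ag.TwistedFamilies`.
-/

set_option autoImplicit false

namespace Pool.Agent.Results.MP_a325a5_ag.TwistedFamilies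

open MvPolynomial
open Pool.Agent.Results.MP_a325a5_ag.FinitelyGeneratedFields (NoAtypical InGeneralPosition
  IndependentOrders evalAt OnB valueAt)

/-- The member `X_{t,w}` of the family of subsets of `Y(1)^n × G_m^k`: the points `x` over which there
are values `s_i` of the functions on the factors of the product of modular curves, with
`w_i c_i (t) s_i = A_i (y) / B_i (y)` for the modular and `w_j c_j (t) x_j = A_j (y) / B_j (y)` for the
torus coordinates, for a point `y` of `B_t`. -/
def member {K : Subfield ℂ} (t : ℂ) {N n k : ℕ} {κ : Type}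
    (G : κ → MvPolynomial (Fin (N + 1)) (Polynomial K))
    (A B : Fin n ⊕ Fin k → MvPolynomial (Fin (N + 1)) (Polynomial K))
    (R : Fin n → Polynomial (Polynomial K)) (c : Fin n ⊕ Fin k → Polynomial K)
    (w : Fin n ⊕ Fin k → ℂ) : Set (Fin n ⊕ Fin k → ℂ) :=
  {x | (∀ j, x (Sum.inr j) ≠ 0) ∧ ∃ y, OnB t G y ∧
    (∃ s : Fin n → ℂ, ∀ i, valueAt (R i) (s i) (x (Sum.inl i)) = 0 ∧
      w (Sum.inl i) * evalAt K t (c (Sum.inl i)) * eval₂ (evalAt K t) y (B (Sum.inl i)) * s i =
        eval₂ (evalAt K t) y (A (Sum.inl i))) ∧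
    ∀ j, w (Sum.inr j) * evalAt K t (c (Sum.inr j)) * eval₂ (evalAt K t) y (B (Sum.inr j)) *
      x (Sum.inr j) = eval₂ (evalAt K t) y (A (Sum.inr j))}

/-- `z` is a unit of the ring generated by `S`. -/
def IsUnitOf (S : Set ℂ) (z : ℂ) : Prop :=
  z ≠ 0 ∧ z ∈ Subring.closure S ∧ z⁻¹ ∈ Subring.closure S

/-- The generators `F`, `t` and `1 / (t - b)`, `b ∈ P`, of the ring `R_t`. -/
def generators (F P : Finset ℂ) (t : ℂ) : Set ℂ :=
  insert t ((F : Set ℂ) ∪ (fun b => (t - b)⁻¹) '' (P : Set ℂ))

/-- For some vector `w` of units of `R_t` the member `X_{t,w}` has an atypical intersection. -/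
def SomeAtypical {K : Subfield ℂ} (Γ F P : Finset ℂ) {N n k : ℕ} (m : ℕ) {κ : Type}
    (G : κ → MvPolynomial (Fin (N + 1)) (Polynomial K))
    (A B : Fin n ⊕ Fin k → MvPolynomial (Fin (N + 1)) (Polynomial K))
    (R : Fin n → Polynomial (Polynomial K)) (c : Fin n ⊕ Fin k → Polynomial K) (t : ℂ) : Prop :=
  ∃ w : Fin n ⊕ Fin k → ℂ, (∀ i, IsUnitOf (generators F P t) (w i)) ∧
    ¬ NoAtypical (algebraMap (Algebra.adjoin ℤ (Γ : Set ℂ)) ℂ) K m (member t G A B R c w)

/-- Families in products of modular curves and tori which degenerate at sufficiently many algebraic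
values of the parameter, scaled by arbitrary units: only for finitely many parameters in a finitely
generated field, in a finitely generated ring, or in its group of units there is a scaling with an
atypical intersection. -/
theorem result (K : Subfield ℂ) [Countable K] (κ : Type) [Finite κ] (N n k m M T : ℕ)
    (G : κ → MvPolynomial (Fin (N + 1)) (Polynomial K)) (hG : ∀ l, ∃ e, (G l).IsHomogeneous e)
    (A B : Fin n ⊕ Fin k → MvPolynomial (Fin (N + 1)) (Polynomial K)) (δ : Fin n ⊕ Fin k → ℕ)
    (hA : ∀ i, (A i).IsHomogeneous (δ i)) (hB : ∀ i, (B i).IsHomogeneous (δ i))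
    (R : Fin n → Polynomial (Polynomial K)) (hR : ∀ i, (R i).Monic)
    (hT : ∀ i u w, ((R i).coeff u).coeff w ≠ 0 → u ≤ T ∧ w ≤ T)
    (c : Fin n ⊕ Fin k → Polynomial K) (hc : ∀ i, c i ≠ 0) (D : Fin M → Finset ℂ)
    (hD : ∀ l, ∀ α ∈ D l, IsAlgebraic K α) (hind : IndependentOrders T c D)
    (hpos : ∀ l, ∀ α ∈ D l, InGeneralPosition α m G A B)
    (Γ : Finset ℂ) (hΓ : ∀ γ ∈ Γ, IsAlgebraic K γ) (F : Finset ℂ)
    (hF : ∀ z ∈ F, IsAlgebraic K z) (P : Finset ℂ) (hP : ∀ z ∈ P, IsAlgebraic K z)
    (hPD : ∀ l, ∀ α ∈ D l, α ∉ P) :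
    ((∀ I : Finset (Fin M), M ≤ I.card + (n.choose 2 + k * 2 ^ k) → 3 ≤ (I.biUnion D).card) →
      {t : ℂ | t ∈ Subfield.closure (F : Set ℂ) ∧ SomeAtypical Γ F P m G A B R c t}.Finite) ∧
    ((∀ I : Finset (Fin M), M ≤ I.card + (n.choose 2 + k * 2 ^ k) → 2 ≤ (I.biUnion D).card) →
      {t : ℂ | t ∈ Subring.closure (F : Set ℂ) ∧ SomeAtypical Γ F P m G A B R c t}.Finite) ∧
    ((∀ I : Finset (Fin M), M ≤ I.card + (n.choose 2 + k * 2 ^ k) →
        ∃ α ∈ I.biUnion D, α ≠ 0) →
      {t : ℂ | IsUnitOf (F : Set ℂ) t ∧ SomeAtypical Γ F P m G A B R c t}.Finite) := by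
  classical
  obtain ⟨W, hFW, hcrit⟩ := Pool.Agent.Q57.ZP.mix_crit K κ N n k m M T G hG A B δ hA hB R hR hT c hc
    D hD hind hpos Γ hΓ F hF P hP hPD
  have hE : ∀ t, t ∉ {t : ℂ | ¬ IsAlgebraic K t} ∪ ((Finset.univ.biUnion D : Finset ℂ) : Set ℂ) →
      (∃ f : Fin (n.choose 2 + k * 2 ^ k + 1) → Fin M,
      Function.Injective f ∧ ∀ l, ∃ a ∈ D (f l), ¬ Pool.Agent.Y910.Z.Bad (W : Set ℂ) t a) →
      t ∉ {t | SomeAtypical Γ F P m G A B R c t} := by
    rintro t ht hf ⟨w, hw, hno⟩
    rw [Set.mem_union, not_or] at ht
    exact hno (hcrit t (not_not.1 ht.1) (fun h => ht.2 (Finset.mem_coe.2 h)) w (fun i =>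
      Pool.Agent.Q57.ZP.UnitOf.mono (Pool.Agent.Q57.ZP.gens_mono hFW t) (hw i)) hf)
  have hfin : ∀ Q : ℂ → Prop, {t : ℂ | Q t ∧ t ∈ {t : ℂ | ¬ IsAlgebraic K t}}.Finite →
      {t : ℂ | Q t ∧ t ∈ {t : ℂ | ¬ IsAlgebraic K t} ∪
        ((Finset.univ.biUnion D : Finset ℂ) : Set ℂ)}.Finite := by
    intro Q h
    refine (h.union (Finset.univ.biUnion D).finite_toSet).subset ?_
    rintro t ⟨h1, h2 | h2⟩
    · exact Or.inl ⟨h1, h2⟩
    · exact Or.inr h2
  refine ⟨fun h => ?_, fun h => ?_, fun h => ?_⟩
  · exact Pool.Agent.Q57.ZP.finite_of_bad' (n.choose 2 + k * 2 ^ k + 1) W D _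
      (fun I hI => Pool.Agent.Q57.ZP.fin_bad_field W F D I (h I (by omega))) _ _
      (hfin _ (Pool.Agent.Q57.ZP.alg_field hF)) hE
  · exact Pool.Agent.Q57.ZP.finite_of_bad' (n.choose 2 + k * 2 ^ k + 1) W D _
      (fun I hI => Pool.Agent.Q57.ZP.fin_bad_ring W F D I (h I (by omega))) _ _
      (hfin _ (Pool.Agent.Q57.ZP.alg_ring hF)) hE
  · exact Pool.Agent.Q57.ZP.finite_of_bad' (n.choose 2 + k * 2 ^ k + 1) W D _
      (fun I hI => Pool.Agent.Q57.ZP.fin_bad_unit W F hFW D I (h I (by omega))) _ _
      (hfin _ (Pool.Agent.Q57.ZP.alg_unit hF)) hE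

end Pool.Agent.Results.MP_a325a5_ag.TwistedFamilies
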